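import Mathlib

/-!
# Adjoining the Frobenius number can destroy greediness

For a finite set `S` of positive integers, `gen S` is the semigroup `⟨S⟩`, `minCost S k` is the least cost of
a representation of `k`, `greedyCost S k` is the cost of the greedy representation and `frob S` is the
Frobenius number. We show that `S = {4, 6, 9}` (a minimal system of generators, Frobenius number `11`) and
`S = {2, 7}` (Frobenius number `5`) are greedy, while `{4, 6, 9, 11}` and `{2, 5, 7}` are not: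

* `27 = 9 + 9 + 9`, but the greedy representation is `27 = 11 + 6 + 6 + 4`;
* `15 = 5 + 5 + 5`, but the greedy representation is `15 = 7 + 2 + 2 + 2 + 2`.
-/

set_option autoImplicit false

namespace Pool.Agent.Results.MP_8ea6c6_co.FrobeniusNotGreedy

/-- The semigroup `⟨S⟩`. -/
def gen (S : Finset ℕ) : AddSubmonoid ℕ := AddSubmonoid.closure (S : Set ℕ)

/-- The least cost `∑ a_i` of a representation `∑ a_i s_i = k`. -/
noncomputable def minCost (S : Finset ℕ) (k : ℕ) : ℕ :=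
  sInf {c : ℕ | ∃ a : ℕ → ℕ, ∑ s ∈ S, a s * s = k ∧ ∑ s ∈ S, a s = c}

/-- The cost of the greedy algorithm, run through a list of generators: for the current generator `s` and
the current number `k`, `q` is the largest integer with `k - q s ∈ G`. -/
noncomputable def greedyRun (G : AddSubmonoid ℕ) : List ℕ → ℕ → ℕ
  | [], _ => 0
  | s :: l, k =>
    let q := sSup {q : ℕ | q * s ≤ k ∧ k - q * s ∈ G}
    q + greedyRun G l (k - q * s)

/-- The greedy cost: the greedy algorithm is run through the elements of `S` in decreasing order. -/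
noncomputable def greedyCost (S : Finset ℕ) (k : ℕ) : ℕ :=
  greedyRun (gen S) (S.sort (· ≥ ·)) k

/-- `S` is greedy. -/
def Greedy (S : Finset ℕ) : Prop := ∀ k ∈ gen S, greedyCost S k = minCost S k

/-- The Frobenius number: the largest natural number which is not in `⟨S⟩`. -/
noncomputable def frob (S : Finset ℕ) : ℕ := sSup {n : ℕ | n ∉ gen S}

/-! ### Tools -/

theorem run_cons (G : AddSubmonoid ℕ) (s : ℕ) (l : List ℕ) (k q : ℕ) (h1 : q * s ≤ k)
    (h2 : k - q * s ∈ G) (h3 : ∀ q', q < q' → q' * s ≤ k → k - q' * s ∉ G) :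
    greedyRun G (s :: l) k = q + greedyRun G l (k - q * s) := by
  have h : IsGreatest {q : ℕ | q * s ≤ k ∧ k - q * s ∈ G} q := by
    refine ⟨⟨h1, h2⟩, fun q' hq' => ?_⟩
    by_contra hlt
    push Not at hlt
    exact h3 q' hlt hq'.1 hq'.2
  show sSup {q : ℕ | q * s ≤ k ∧ k - q * s ∈ G} +
    greedyRun G l (k - sSup {q : ℕ | q * s ≤ k ∧ k - q * s ∈ G} * s) = _
  rw [h.csSup_eq]

theorem minCost_eq (S : Finset ℕ) (k c : ℕ) (h1 : ∃ a : ℕ → ℕ, ∑ s ∈ S, a s * s = k ∧ ∑ s ∈ S, a s = c)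
    (h2 : ∀ a : ℕ → ℕ, ∑ s ∈ S, a s * s = k → c ≤ ∑ s ∈ S, a s) : minCost S k = c := by
  have h : IsLeast {c : ℕ | ∃ a : ℕ → ℕ, ∑ s ∈ S, a s * s = k ∧ ∑ s ∈ S, a s = c} c := by
    refine ⟨h1, ?_⟩
    rintro d ⟨a, ha, rfl⟩
    exact h2 a ha
  exact h.csInf_eq

theorem minCost_le (S : Finset ℕ) (k c : ℕ)
    (h1 : ∃ a : ℕ → ℕ, ∑ s ∈ S, a s * s = k ∧ ∑ s ∈ S, a s = c) : minCost S k ≤ c :=
  Nat.sInf_le h1

theorem frob_eq (S : Finset ℕ) (F : ℕ) (h1 : F ∉ gen S) (h2 : ∀ n, F < n → n ∈ gen S) :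
    frob S = F := by
  have h : IsGreatest {n : ℕ | n ∉ gen S} F := by
    refine ⟨h1, fun n hn => ?_⟩
    by_contra hlt
    push Not at hlt
    exact hn (h2 n hlt)
  exact h.csSup_eq

theorem mem_gen (S : Finset ℕ) (n : ℕ) : n ∈ gen S ↔ ∃ a : ℕ → ℕ, ∑ s ∈ S, a s * s = n := by
  constructor
  · intro h
    induction h using AddSubmonoid.closure_induction with
    | mem x hx => exact ⟨Pi.single x 1, by
        rw [Finset.sum_eq_single x]
        · simp
        · intro b _ hb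
          simp [Pi.single_eq_of_ne hb]
        · intro hx'
          exact absurd hx hx'⟩
    | zero => exact ⟨0, by simp⟩
    | add x y _ _ hx hy =>
      obtain ⟨a, rfl⟩ := hx
      obtain ⟨b, rfl⟩ := hy
      refine ⟨a + b, ?_⟩
      rw [← Finset.sum_add_distrib]
      exact Finset.sum_congr rfl fun s _ => by simp [add_mul]
  · rintro ⟨a, rfl⟩
    refine AddSubmonoid.sum_mem _ fun s hs => ?_
    rw [← smul_eq_mul]
    exact AddSubmonoid.nsmul_mem _ (AddSubmonoid.subset_closure hs) _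

/-- A function with prescribed values. -/
def fn (l : List (ℕ × ℕ)) (s : ℕ) : ℕ := ((l.find? fun p => p.1 = s).map Prod.snd).getD 0

theorem sort_eq (S : Finset ℕ) (l : List ℕ) (h : S = l.toFinset) (h1 : l.Nodup)
    (h2 : l.Pairwise (· ≥ ·)) : S.sort (· ≥ ·) = l := by
  rw [h]
  exact (List.toFinset_sort (r := (· ≥ ·)) h1).2 h2

/-! ### The set `{4, 6, 9}` -/

theorem sort469 : (({4, 6, 9} : Finset ℕ).sort (· ≥ ·)) = [9, 6, 4] :=
  sort_eq _ _ (by decide) (by decide) (by decide)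

theorem mem469 (n : ℕ) : n ∈ gen {4, 6, 9} ↔ n ≠ 1 ∧ n ≠ 2 ∧ n ≠ 3 ∧ n ≠ 5 ∧ n ≠ 7 ∧ n ≠ 11 := by
  rw [mem_gen]
  constructor
  · rintro ⟨a, h⟩
    have e : ∑ s ∈ ({4, 6, 9} : Finset ℕ), a s * s = a 4 * 4 + (a 6 * 6 + a 9 * 9) := by
      rw [Finset.sum_insert (by decide), Finset.sum_insert (by decide), Finset.sum_singleton]
    rw [e] at h
    omega
  · intro h
    have e : ∀ x y z : ℕ, x * 4 + (y * 6 + z * 9) = n → ∃ a : ℕ → ℕ,
        ∑ s ∈ ({4, 6, 9} : Finset ℕ), a s * s = n := by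
      intro x y z hxyz
      refine ⟨fn [(4, x), (6, y), (9, z)], ?_⟩
      rw [Finset.sum_insert (by decide), Finset.sum_insert (by decide), Finset.sum_singleton]
      simpa [fn] using hxyz
    obtain ⟨m, hm | hm⟩ := Nat.even_or_odd' n
    · refine e ((m - 3 * (m % 2)) / 2) (m % 2) 0 ?_
      omega
    · refine e (((m - 4) - 3 * ((m - 4) % 2)) / 2) ((m - 4) % 2) 1 ?_
      omega

theorem greedy469_aux (q r c : ℕ)
    (h : (r = 0 ∧ c = 0) ∨ (r = 4 ∧ c = 1) ∨ (r = 6 ∧ c = 1) ∨ (r = 8 ∧ c = 2) ∨ (r = 10 ∧ c = 2) ∨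
      (r = 12 ∧ c = 2) ∨ (r = 14 ∧ c = 3) ∨ (r = 16 ∧ c = 3) ∨ (r = 20 ∧ c = 4)) :
    greedyCost {4, 6, 9} (r + q * 9) = minCost {4, 6, 9} (r + q * 9) := by
  have hg : greedyCost {4, 6, 9} (r + q * 9) = q + c := by
    unfold greedyCost
    rw [sort469, run_cons _ _ _ _ q (by omega) (by rw [mem469]; omega)
      (by intro q' h1 h2; rw [mem469]; omega)]
    have e : r + q * 9 - q * 9 = r := by omega
    rw [e]
    congr 1
    -- the number of sixes and fours
    obtain ⟨b, a, hab, hb⟩ : ∃ b a : ℕ, r = a * 4 + b * 6 ∧ b + a = c ∧ b ≤ 2 ∧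
        (r = 0 ∧ b = 0 ∨ r = 4 ∧ b = 0 ∨ r = 6 ∧ b = 1 ∨ r = 8 ∧ b = 0 ∨ r = 10 ∧ b = 1 ∨
          r = 12 ∧ b = 2 ∨ r = 14 ∧ b = 1 ∨ r = 16 ∧ b = 2 ∨ r = 20 ∧ b = 2) := by
      rcases h with h | h | h | h | h | h | h | h | h
      · exact ⟨0, 0, by omega⟩
      · exact ⟨0, 1, by omega⟩
      · exact ⟨1, 0, by omega⟩
      · exact ⟨0, 2, by omega⟩
      · exact ⟨1, 1, by omega⟩
      · exact ⟨2, 0, by omega⟩
      · exact ⟨1, 2, by omega⟩
      · exact ⟨2, 1, by omega⟩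
      · exact ⟨2, 2, by omega⟩
    rw [run_cons _ _ _ _ b (by omega) (by rw [mem469]; omega)
      (by intro q' h1 h2; rw [mem469]; omega)]
    have e2 : r - b * 6 = a * 4 := by omega
    rw [e2, run_cons _ _ _ _ a (by omega) (by rw [mem469]; omega)
      (by intro q' h1 h2; omega)]
    show b + (a + 0) = c
    omega
  rw [hg, eq_comm]
  refine minCost_eq _ _ _ ?_ ?_
  · obtain ⟨x, y, hxy⟩ : ∃ x y : ℕ, x * 4 + y * 6 = r ∧ x + y = c := by
      rcases h with h | h | h | h | h | h | h | h | h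
      · exact ⟨0, 0, by omega⟩
      · exact ⟨1, 0, by omega⟩
      · exact ⟨0, 1, by omega⟩
      · exact ⟨2, 0, by omega⟩
      · exact ⟨1, 1, by omega⟩
      · exact ⟨0, 2, by omega⟩
      · exact ⟨2, 1, by omega⟩
      · exact ⟨1, 2, by omega⟩
      · exact ⟨2, 2, by omega⟩
    refine ⟨fn [(4, x), (6, y), (9, q)], ?_, ?_⟩
    · rw [Finset.sum_insert (by decide), Finset.sum_insert (by decide), Finset.sum_singleton]
      simp [fn]
      omega
    · rw [Finset.sum_insert (by decide), Finset.sum_insert (by decide), Finset.sum_singleton]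
      simp [fn]
      omega
  · intro a ha
    rw [Finset.sum_insert (by decide), Finset.sum_insert (by decide), Finset.sum_singleton] at ha ⊢
    omega

theorem greedy469 : Greedy {4, 6, 9} := by
  intro k hk
  rw [mem469] at hk
  obtain ⟨q, r, c, rfl, h⟩ : ∃ q r c : ℕ, k = r + q * 9 ∧ ((r = 0 ∧ c = 0) ∨ (r = 4 ∧ c = 1) ∨
      (r = 6 ∧ c = 1) ∨ (r = 8 ∧ c = 2) ∨ (r = 10 ∧ c = 2) ∨ (r = 12 ∧ c = 2) ∨ (r = 14 ∧ c = 3) ∨
      (r = 16 ∧ c = 3) ∨ (r = 20 ∧ c = 4)) := by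
    have h9 : k % 9 < 9 := Nat.mod_lt _ (by norm_num)
    rcases (by omega : k % 9 = 0 ∨ k % 9 = 1 ∨ k % 9 = 2 ∨ k % 9 = 3 ∨ k % 9 = 4 ∨ k % 9 = 5 ∨
      k % 9 = 6 ∨ k % 9 = 7 ∨ k % 9 = 8) with e | e | e | e | e | e | e | e | e
    · exact ⟨k / 9, 0, 0, by omega⟩
    · exact ⟨k / 9 - 1, 10, 2, by omega⟩
    · exact ⟨k / 9 - 2, 20, 4, by omega⟩
    · exact ⟨k / 9 - 1, 12, 2, by omega⟩
    · exact ⟨k / 9, 4, 1, by omega⟩
    · exact ⟨k / 9 - 1, 14, 3, by omega⟩
    · exact ⟨k / 9, 6, 1, by omega⟩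
    · exact ⟨k / 9 - 1, 16, 3, by omega⟩
    · exact ⟨k / 9, 8, 2, by omega⟩
  exact greedy469_aux q r c h

theorem frob469 : frob {4, 6, 9} = 11 :=
  frob_eq _ _ (by rw [mem469]; omega) (fun n hn => by rw [mem469]; omega)

theorem sort46911 : (({11, 4, 6, 9} : Finset ℕ).sort (· ≥ ·)) = [11, 9, 6, 4] :=
  sort_eq _ _ (by decide) (by decide) (by decide)

theorem mem46911 (n : ℕ) : n ∈ gen {11, 4, 6, 9} ↔ n ≠ 1 ∧ n ≠ 2 ∧ n ≠ 3 ∧ n ≠ 5 ∧ n ≠ 7 := by
  rw [mem_gen]
  constructor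
  · rintro ⟨a, h⟩
    have e : ∑ s ∈ ({11, 4, 6, 9} : Finset ℕ), a s * s =
        a 11 * 11 + (a 4 * 4 + (a 6 * 6 + a 9 * 9)) := by
      rw [Finset.sum_insert (by decide), Finset.sum_insert (by decide),
        Finset.sum_insert (by decide), Finset.sum_singleton]
    rw [e] at h
    refine ⟨?_, ?_, ?_, ?_, ?_⟩ <;> intro hn <;> (have h11 : a 11 = 0 := by omega) <;>
      (have h9 : a 9 = 0 := by omega) <;> omega
  · intro h
    have e : ∀ w x y z : ℕ, w * 11 + (x * 4 + (y * 6 + z * 9)) = n → ∃ a : ℕ → ℕ,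
        ∑ s ∈ ({11, 4, 6, 9} : Finset ℕ), a s * s = n := by
      intro w x y z hxyz
      refine ⟨fn [(11, w), (4, x), (6, y), (9, z)], ?_⟩
      rw [Finset.sum_insert (by decide), Finset.sum_insert (by decide),
        Finset.sum_insert (by decide), Finset.sum_singleton]
      simpa [fn] using hxyz
    by_cases h11 : n = 11
    · exact e 1 0 0 0 (by omega)
    obtain ⟨m, hm | hm⟩ := Nat.even_or_odd' n
    · refine e 0 ((m - 3 * (m % 2)) / 2) (m % 2) 0 ?_
      omega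
    · refine e 0 (((m - 4) - 3 * ((m - 4) % 2)) / 2) ((m - 4) % 2) 1 ?_
      omega

theorem not_greedy46911 : ¬ Greedy {11, 4, 6, 9} := by
  intro h
  have h27 := h 27 (by rw [mem46911]; omega)
  have h1 : greedyCost {11, 4, 6, 9} 27 = 4 := by
    unfold greedyCost
    rw [sort46911, run_cons _ _ _ _ 1 (by omega) (by rw [mem46911]; omega)
      (by intro q' h1 h2; rw [mem46911]; omega)]
    rw [run_cons _ _ _ _ 0 (by omega) (by rw [mem46911]; omega)
      (by intro q' h1 h2; rw [mem46911]; omega)]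
    rw [run_cons _ _ _ _ 2 (by omega) (by rw [mem46911]; omega)
      (by intro q' h1 h2; rw [mem46911]; omega)]
    rw [run_cons _ _ _ _ 1 (by omega) (by rw [mem46911]; omega)
      (by intro q' h1 h2; omega)]
    rfl
  have h2 : minCost {11, 4, 6, 9} 27 ≤ 3 := minCost_le _ _ _ ⟨fn [(9, 3)], by decide, by decide⟩
  omega

/-! ### The set `{2, 7}` -/

theorem sort27 : (({2, 7} : Finset ℕ).sort (· ≥ ·)) = [7, 2] :=
  sort_eq _ _ (by decide) (by decide) (by decide)

theorem mem27 (n : ℕ) : n ∈ gen {2, 7} ↔ n ≠ 1 ∧ n ≠ 3 ∧ n ≠ 5 := by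
  rw [mem_gen]
  constructor
  · rintro ⟨a, h⟩
    rw [Finset.sum_insert (by decide), Finset.sum_singleton] at h
    omega
  · intro h
    have e : ∀ x y : ℕ, x * 2 + y * 7 = n → ∃ a : ℕ → ℕ,
        ∑ s ∈ ({2, 7} : Finset ℕ), a s * s = n := by
      intro x y hxy
      refine ⟨fn [(2, x), (7, y)], ?_⟩
      rw [Finset.sum_insert (by decide), Finset.sum_singleton]
      simpa [fn] using hxy
    refine e ((n - 7 * (n % 2)) / 2) (n % 2) ?_
    omega

theorem greedy27 : Greedy {2, 7} := by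
  intro k hk
  rw [mem27] at hk
  obtain ⟨q, x, hqx, hx⟩ : ∃ q x : ℕ, k = x * 2 + q * 7 ∧ x < 7 := by
    rcases (by omega : k % 7 = 0 ∨ k % 7 = 1 ∨ k % 7 = 2 ∨ k % 7 = 3 ∨ k % 7 = 4 ∨ k % 7 = 5 ∨
      k % 7 = 6) with e | e | e | e | e | e | e
    · exact ⟨k / 7, 0, by omega, by omega⟩
    · exact ⟨k / 7 - 1, 4, by omega, by omega⟩
    · exact ⟨k / 7, 1, by omega, by omega⟩
    · exact ⟨k / 7 - 1, 5, by omega, by omega⟩
    · exact ⟨k / 7, 2, by omega, by omega⟩
    · exact ⟨k / 7 - 1, 6, by omega, by omega⟩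
    · exact ⟨k / 7, 3, by omega, by omega⟩
  have hg : greedyCost {2, 7} k = q + x := by
    unfold greedyCost
    rw [sort27, run_cons _ _ _ _ q (by omega) (by rw [mem27]; omega)
      (by intro q' h1 h2; rw [mem27]; omega)]
    have e2 : k - q * 7 = x * 2 := by omega
    rw [e2, run_cons _ _ _ _ x (by omega) (by rw [mem27]; omega)
      (by intro q' h1 h2; omega)]
    rfl
  rw [hg, eq_comm]
  refine minCost_eq _ _ _ ⟨fn [(2, x), (7, q)], ?_, ?_⟩ ?_
  · rw [Finset.sum_insert (by decide), Finset.sum_singleton]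
    simp [fn]
    omega
  · rw [Finset.sum_insert (by decide), Finset.sum_singleton]
    simp [fn]
    omega
  · intro a ha
    rw [Finset.sum_insert (by decide), Finset.sum_singleton] at ha ⊢
    omega

theorem frob27 : frob {2, 7} = 5 :=
  frob_eq _ _ (by rw [mem27]; omega) (fun n hn => by rw [mem27]; omega)

theorem sort257 : (({5, 2, 7} : Finset ℕ).sort (· ≥ ·)) = [7, 5, 2] :=
  sort_eq _ _ (by decide) (by decide) (by decide)

theorem mem257 (n : ℕ) : n ∈ gen {5, 2, 7} ↔ n ≠ 1 ∧ n ≠ 3 := by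
  rw [mem_gen]
  constructor
  · rintro ⟨a, h⟩
    rw [Finset.sum_insert (by decide), Finset.sum_insert (by decide), Finset.sum_singleton] at h
    refine ⟨?_, ?_⟩ <;> intro hn <;> (have h5 : a 5 = 0 := by omega) <;>
      (have h7 : a 7 = 0 := by omega) <;> omega
  · intro h
    have e : ∀ w x y : ℕ, w * 5 + (x * 2 + y * 7) = n → ∃ a : ℕ → ℕ,
        ∑ s ∈ ({5, 2, 7} : Finset ℕ), a s * s = n := by
      intro w x y hxy
      refine ⟨fn [(5, w), (2, x), (7, y)], ?_⟩
      rw [Finset.sum_insert (by decide), Finset.sum_insert (by decide), Finset.sum_singleton]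
      simpa [fn] using hxy
    refine e (n % 2) ((n - 5 * (n % 2)) / 2) 0 ?_
    omega

theorem not_greedy257 : ¬ Greedy {5, 2, 7} := by
  intro h
  have h15 := h 15 (by rw [mem257]; omega)
  have h1 : greedyCost {5, 2, 7} 15 = 5 := by
    unfold greedyCost
    rw [sort257, run_cons _ _ _ _ 1 (by omega) (by rw [mem257]; omega)
      (by intro q' h1 h2; rw [mem257]; omega)]
    rw [run_cons _ _ _ _ 0 (by omega) (by rw [mem257]; omega)
      (by intro q' h1 h2; rw [mem257]; omega)]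
    rw [run_cons _ _ _ _ 4 (by omega) (by rw [mem257]; omega)
      (by intro q' h1 h2; omega)]
    rfl
  have h2 : minCost {5, 2, 7} 15 ≤ 3 := minCost_le _ _ _ ⟨fn [(5, 3)], by decide, by decide⟩
  omega

/-- **Disproof of Q1.** There are greedy sets `S` of positive integers with `gcd(S) = 1` and `1 ∉ S` such
that `S ∪ {F(⟨S⟩)}` is not greedy: `S = {4, 6, 9}`, with the Frobenius number `11`, and no element of `S` lies
in the semigroup generated by the others; and `S = {2, 7}`, with the Frobenius number `5`. -/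
theorem result :
    ((∀ s ∈ ({4, 6, 9} : Finset ℕ), 0 < s) ∧ ({4, 6, 9} : Finset ℕ).gcd id = 1 ∧
      1 ∉ ({4, 6, 9} : Finset ℕ) ∧ (∀ s ∈ ({4, 6, 9} : Finset ℕ), s ∉ gen (({4, 6, 9} : Finset ℕ).erase s)) ∧
      frob {4, 6, 9} = 11 ∧
      Greedy {4, 6, 9} ∧ ¬ Greedy (insert (frob {4, 6, 9}) {4, 6, 9})) ∧
    ((∀ s ∈ ({2, 7} : Finset ℕ), 0 < s) ∧ ({2, 7} : Finset ℕ).gcd id = 1 ∧
      1 ∉ ({2, 7} : Finset ℕ) ∧ frob {2, 7} = 5 ∧
      Greedy {2, 7} ∧ ¬ Greedy (insert (frob {2, 7}) {2, 7})) := by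
  refine ⟨⟨by decide, by decide, by decide, ?_, frob469, greedy469, ?_⟩,
    ⟨by decide, by decide, by decide, frob27, greedy27, ?_⟩⟩
  · intro s hs
    rw [mem_gen]
    rintro ⟨a, ha⟩
    simp only [Finset.mem_insert, Finset.mem_singleton] at hs
    rcases hs with rfl | rfl | rfl
    · rw [(by decide : ({4, 6, 9} : Finset ℕ).erase 4 = {6, 9}), Finset.sum_insert (by decide),
        Finset.sum_singleton] at ha
      omega
    · rw [(by decide : ({4, 6, 9} : Finset ℕ).erase 6 = {4, 9}), Finset.sum_insert (by decide),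
        Finset.sum_singleton] at ha
      omega
    · rw [(by decide : ({4, 6, 9} : Finset ℕ).erase 9 = {4, 6}), Finset.sum_insert (by decide),
        Finset.sum_singleton] at ha
      omega
  · rw [frob469]
    exact not_greedy46911
  · rw [frob27]
    exact not_greedy257

end Pool.Agent.Results.MP_8ea6c6_co.FrobeniusNotGreedy
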